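import Pool.Agent.H84.GL.Basic

/-!
# Module CA1: exact formula for the derivative of `fl` minus the shape function
-/

namespace Pool.Agent.H19.GL

open Pool.Agent.H84.GL Pool.Agent.H99.NS

theorem pf_CA1 : T_CA1 := by
  intro q x y α hq0 hq1 hx hy hqα hα
  unfold gg
  obtain ⟨u, hu⟩ : ∃ u, u = √x := ⟨_, rfl⟩
  obtain ⟨v, hv⟩ : ∃ v, v = √(q * y) := ⟨_, rfl⟩
  have hu2 : u ^ 2 = x := by rw [hu]; exact Real.sq_sqrt hx.le
  have hv2 : v ^ 2 = q * y := by rw [hv]; exact Real.sq_sqrt (by positivity)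
  have huv : √(q * x * y) = u * v := by
    rw [hu, hv, ← Real.sqrt_mul hx.le]
    congr 1; ring
  rw [huv, ← hu, ← hv]
  have h1 : (1 - q) ≠ 0 := by linarith
  have h2 : (1 - α) ≠ 0 := by linarith
  have h3 : (α - q) ≠ 0 := by linarith
  have e1 : y * (q / (α - q)) = v ^ 2 / (α - q) := by rw [hv2]; ring
  have e2 : q * (x + y) = q * u ^ 2 + v ^ 2 := by rw [hu2, hv2]; ring
  rw [e1, e2, ← hu2]
  field_simp
  ring

end Pool.Agent.H19.GL
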