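import Pool.Agent.H84.GL.Basic

/-!
# Module CA3: link between `fl` and the value of the moment generating function
-/

namespace Pool.Agent.H19.GL

open Pool.Agent.H84.GL Pool.Agent.H99.NS

theorem exp_mul_log (n : ℕ) (A : ℝ) (hA : 0 < A) : Real.exp (n * Real.log A) = A ^ n := by
  rw [Real.exp_nat_mul, Real.exp_log hA]

theorem pf_CA3 : T_CA3 := by
  intro q α s t a b hq0 hq1 hα h1 h2 h3 h4
  have e1 : ∀ s : ℝ, q / α * Real.exp (-s) = q / (α * Real.exp s) := by
    intro s
    rw [Real.exp_neg]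
    field_simp
  unfold fl
  rw [e1 s, e1 t]
  obtain ⟨A, hA⟩ : ∃ A, A = 1 - α * Real.exp s := ⟨_, rfl⟩
  obtain ⟨B, hB⟩ : ∃ B, B = 1 - α * Real.exp t := ⟨_, rfl⟩
  obtain ⟨A', hA'⟩ : ∃ A', A' = 1 - q / (α * Real.exp s) := ⟨_, rfl⟩
  obtain ⟨B', hB'⟩ : ∃ B', B' = 1 - q / (α * Real.exp t) := ⟨_, rfl⟩
  have pA : 0 < A := by linarith
  have pB : 0 < B := by linarith
  have pA' : 0 < A' := by
    have : q / (α * Real.exp s) < 1 := by rw [div_lt_one (by linarith)]; exact h1
    linarith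
  have pB' : 0 < B' := by
    have : q / (α * Real.exp t) < 1 := by rw [div_lt_one (by linarith)]; exact h3
    linarith
  rw [← hA, ← hB, ← hA', ← hB']
  rw [show -(a : ℝ) * Real.log B + b * Real.log B' - (-(a : ℝ) * Real.log A + b * Real.log A') =
    (a * Real.log A + b * Real.log B') - (a * Real.log B + b * Real.log A') by ring,
    Real.exp_sub, Real.exp_add, Real.exp_add, exp_mul_log a A pA, exp_mul_log b B' pB',
    exp_mul_log a B pB, exp_mul_log b A' pA', div_pow, div_pow]
  field_simp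

end Pool.Agent.H19.GL
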