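import Pool.Agent.H19.GL.PS

/-!
# Module CA4: the gain of a late exit
-/

namespace Pool.Agent.H19.GL

open Pool.Agent.H84.GL Pool.Agent.H99.NS

theorem pf_CA4 : T_CA4 := by
  intro x θ hx hθ h
  have h1 : 1 ≤ Real.exp θ := Real.one_le_exp hθ
  have hx1 : x < 1 := by nlinarith
  have h0 : 0 < 1 - x := by linarith
  have e1 := yy_eq x (2 * θ)
  have e2 := prod_eq x (2 * θ)
  rw [show 2 * θ / 2 = θ by ring] at e2
  rw [show 2 * θ / 4 = θ / 2 by ring] at e1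
  rw [e2]
  have h3 := le_exp_sub (θ / 2) (by linarith)
  have h4 : θ ^ 2 ≤ (Real.exp (θ / 2) - Real.exp (-(θ / 2))) ^ 2 :=
    pow_le_pow_left₀ hθ (by linarith) 2
  have h5 : x * θ ^ 2 ≤ yy x (2 * θ) := by
    rw [e1]; exact mul_le_mul_of_nonneg_left h4 hx.le
  have h6 : ((1 - x) ^ 2 - yy x (2 * θ)) / (1 - x) ^ 2 ≤ 1 - x * θ ^ 2 := by
    rw [div_le_iff₀ (by positivity)]
    have h7 : (1 - x) ^ 2 ≤ 1 := by nlinarith
    have h8 : 0 ≤ x * θ ^ 2 := by positivity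
    nlinarith [mul_le_mul_of_nonneg_left h7 h8]
  have h9 := Real.add_one_le_exp (-(x * θ ^ 2))
  linarith

end Pool.Agent.H19.GL
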