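import Pool.Agent.H19.GL.PS

/-!
# Module CA5: exponential moment of one step of the difference of two walks
-/

namespace Pool.Agent.H19.GL

open Pool.Agent.H84.GL Pool.Agent.H99.NS

theorem pf_CA5 : T_CA5 := by
  intro b₁ hb0 hb1
  obtain ⟨b, hb⟩ : ∃ b, b = (1 + b₁) / 2 := ⟨_, rfl⟩
  have hbp : 0 < b := by linarith
  have h1b : 0 < 1 - b := by linarith
  have hq : 1 < (1 + b₁) / (2 * b₁) := by
    rw [lt_div_iff₀ (by positivity)]; linarith
  have hlog : 0 < Real.log ((1 + b₁) / (2 * b₁)) := Real.log_pos hq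
  refine ⟨max (1 / (1 - b)) (16 / (1 - b) ^ 2), min 1 (Real.log ((1 + b₁) / (2 * b₁)) / 2),
    by positivity, by positivity, ?_⟩
  intro x t hx hxb ht0 ht1
  have ht1' : t ≤ 1 := ht1.trans (min_le_left _ _)
  have ht2' : t ≤ Real.log ((1 + b₁) / (2 * b₁)) / 2 := ht1.trans (min_le_right _ _)
  have hexp : Real.exp (2 * t) ≤ (1 + b₁) / (2 * b₁) := by
    rw [← Real.exp_log (show 0 < (1 + b₁) / (2 * b₁) by positivity)]
    exact Real.exp_le_exp.2 (by linarith)
  have hxe : x * Real.exp (2 * t) ≤ b := by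
    calc x * Real.exp (2 * t) ≤ b₁ * ((1 + b₁) / (2 * b₁)) :=
          mul_le_mul hxb hexp (Real.exp_pos _).le hb0.le
      _ = b := by rw [hb]; field_simp
  have hD1 : 1 - b ≤ 1 - x * Real.exp (2 * t) := by linarith
  have hD2 : 1 - b ≤ 1 - x * Real.exp (-(2 * t)) := by
    have : Real.exp (-(2 * t)) ≤ Real.exp (2 * t) := Real.exp_le_exp.2 (by linarith)
    nlinarith [mul_le_mul_of_nonneg_left this hx.le]
  have hN1 : 1 - x * Real.exp t ≤ 1 := by
    have := mul_pos hx (Real.exp_pos t); linarith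
  refine ⟨by linarith, ?_, ?_⟩
  · calc (1 - x * Real.exp t) / (1 - x * Real.exp (2 * t)) ≤ 1 / (1 - b) := by
          apply div_le_div₀ zero_le_one hN1 h1b hD1
      _ ≤ _ := le_max_left _ _
  · rw [div_mul_div_comm]
    obtain ⟨u, hu⟩ : ∃ u, u = Real.exp t := ⟨_, rfl⟩
    obtain ⟨v, hv⟩ : ∃ v, v = Real.exp (-t) := ⟨_, rfl⟩
    have huv : u * v = 1 := by rw [hu, hv, ← Real.exp_add]; simp
    have e1 : Real.exp (2 * t) = u ^ 2 := by
      rw [hu, ← Real.exp_nat_mul]; norm_num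
    have e2 : Real.exp (-(2 * t)) = v ^ 2 := by
      rw [hv, ← Real.exp_nat_mul]; congr 1; push_cast; ring
    rw [e1] at hD1 hxe
    rw [e2] at hD2
    rw [e1, e2, ← hu, ← hv]
    have hd : u - v ≤ 4 * t := by
      have := exp_sub_le t ht0 ht1'
      rw [← hu, ← hv] at this
      linarith
    have hd0 : 0 ≤ u - v := by
      have := le_exp_sub t ht0
      rw [← hu, ← hv] at this
      linarith
    have hDpos : 0 < (1 - x * u ^ 2) * (1 - x * v ^ 2) :=
      mul_pos (by linarith) (by linarith)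
    have hDge : (1 - b) ^ 2 ≤ (1 - x * u ^ 2) * (1 - x * v ^ 2) := by
      nlinarith [mul_le_mul hD1 hD2 h1b.le (by linarith)]
    have hdiff : (1 - x * u) * (1 - x * v) - (1 - x * u ^ 2) * (1 - x * v ^ 2) ≤
        16 * t ^ 2 := by
      have e3 : (1 - x * u) * (1 - x * v) - (1 - x * u ^ 2) * (1 - x * v ^ 2) =
          x * ((u - v) ^ 2 - (u + v - 2)) := by
        linear_combination (-x ^ 2 * u * v + 2 * x) * huv
      have h4 : 0 ≤ u + v - 2 := by
        have hu0 : 0 < u := by rw [hu]; exact Real.exp_pos _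
        have hv0 : 0 < v := by rw [hv]; exact Real.exp_pos _
        nlinarith [sq_nonneg (u - v), sq_nonneg (u + v - 2)]
      rw [e3]
      have h5 : (u - v) ^ 2 ≤ (4 * t) ^ 2 := pow_le_pow_left₀ hd0 hd 2
      have h6 : x ≤ 1 := by linarith
      nlinarith [mul_nonneg hx.le h4, mul_le_mul_of_nonneg_left h5 hx.le, sq_nonneg t,
        mul_nonneg (sub_nonneg.2 h6) (sq_nonneg t)]
    have hquot : ((1 - x * u) * (1 - x * v)) / ((1 - x * u ^ 2) * (1 - x * v ^ 2)) ≤
        1 + 16 / (1 - b) ^ 2 * t ^ 2 := by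
      rw [div_le_iff₀ hDpos]
      have h7 : 16 / (1 - b) ^ 2 * t ^ 2 * (1 - b) ^ 2 = 16 * t ^ 2 := by
        field_simp
      have h8 : 16 / (1 - b) ^ 2 * t ^ 2 * (1 - b) ^ 2 ≤
          16 / (1 - b) ^ 2 * t ^ 2 * ((1 - x * u ^ 2) * (1 - x * v ^ 2)) :=
        mul_le_mul_of_nonneg_left hDge (by positivity)
      linarith
    refine hquot.trans ?_
    have h9 := Real.add_one_le_exp (16 / (1 - b) ^ 2 * t ^ 2)
    have h10 : Real.exp (16 / (1 - b) ^ 2 * t ^ 2) ≤
        Real.exp (max (1 / (1 - b)) (16 / (1 - b) ^ 2) * t ^ 2) := by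
      apply Real.exp_le_exp.2
      exact mul_le_mul_of_nonneg_right (le_max_right _ _) (sq_nonneg t)
    linarith

end Pool.Agent.H19.GL
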