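import Pool.Agent.H84.GL.Basic

/-!
# Module PAR: the linear parameter lies below the parabola
-/

namespace Pool.Agent.H19.GL

open Pool.Agent.H84.GL Pool.Agent.H99.NS

theorem pf_PAR : T_PAR := by
  intro r x N hr0 hr1 hx1 hx2 hN
  have h1r : 0 < 1 + r := by linarith
  have h1mr : 0 < 1 - r := by linarith
  obtain ⟨A, hAd⟩ : ∃ A, A = 1 + r - x := ⟨_, rfl⟩
  obtain ⟨B, hBd⟩ : ∃ B, B = 1 + r + x * r := ⟨_, rfl⟩
  have hA : 0 < A := by linarith
  have hB : 0 < B := by nlinarith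
  have e1 : r * (1 - x * (1 - r) / (1 + r)) - r ^ 2 = r * (1 - r) * A / (1 + r) := by
    rw [hAd]
    field_simp
    ring
  have e2 : 1 - r * (1 - x * (1 - r) / (1 + r)) = (1 - r) * B / (1 + r) := by
    rw [hBd]
    field_simp
    ring
  have p1 : 0 < r * (1 - r) * A / (1 + r) := by positivity
  have p2 : 0 < (1 - r) * B / (1 + r) := by positivity
  refine ⟨by linarith, by linarith, ?_⟩
  have f1 : r * (1 - x * (1 - r) / (1 + r)) / (1 - r * (1 - x * (1 - r) / (1 + r))) =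
      (1 + r) / ((1 - r) * B) - 1 := by
    rw [e2]
    field_simp
    rw [hBd]
    ring
  have f2 : r ^ 2 / (r * (1 - x * (1 - r) / (1 + r)) - r ^ 2) =
      r * (1 + r) / ((1 - r) * A) := by
    rw [e1]
    field_simp
  rw [f1, f2]
  have e3 : (1 - r ^ 2) = (1 - r) * (1 + r) := by ring
  have key : r / (1 - r) - (r / (1 - r ^ 2) / 2) * x ^ 2 -
      (1 + x) / 2 * ((1 + r) / ((1 - r) * B) - 1) -
      (1 - x) / 2 * (r * (1 + r) / ((1 - r) * A)) =
      r ^ 2 * x ^ 4 / (2 * (1 - r) * (1 + r) * B * A) := by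
    rw [e3]
    field_simp
    rw [hAd, hBd]
    ring
  have hpos : 0 ≤ r ^ 2 * x ^ 4 / (2 * (1 - r) * (1 + r) * B * A) := by
    positivity
  rw [← key] at hpos
  nlinarith [mul_nonneg hpos hN]

end Pool.Agent.H19.GL
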