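import Pool.Agent.H84.GL.Basic

/-!
# Module PEL: peeling the first column
-/

namespace Pool.Agent.H19.GL

open Pool.Agent.H84.GL Pool.Agent.H99.NS

theorem GB_zero_zero (I J : ℕ → ℕ) (W : ℕ × ℕ → ℕ) : GB I J W 0 0 = 0 := by simp only [GB]

theorem GB_succ_zero (I J : ℕ → ℕ) (W : ℕ × ℕ → ℕ) (i : ℕ) :
    GB I J W (i+1) 0 = GB I J W i 0 + I i := by simp only [GB]

theorem GB_zero_succ (I J : ℕ → ℕ) (W : ℕ × ℕ → ℕ) (j : ℕ) :
    GB I J W 0 (j+1) = GB I J W 0 j + J j := by simp only [GB]

theorem GB_succ_succ (I J : ℕ → ℕ) (W : ℕ × ℕ → ℕ) (i j : ℕ) :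
    GB I J W (i+1) (j+1) = max (GB I J W i (j+1)) (GB I J W (i+1) j) + W (i, j) := by
  simp only [GB]

theorem first_col (I J : ℕ → ℕ) (W : ℕ × ℕ → ℕ) (j : ℕ) :
    GB I J W 1 j = GB I J W 0 j + hst (I 0) J (fun j => W (0, j)) j := by
  induction j with
  | zero =>
    have h := GB_succ_zero I J W 0
    simp only [zero_add] at h
    rw [h, hst]
  | succ j ih =>
    have h := GB_succ_succ I J W 0 j
    simp only [zero_add] at h
    rw [h, GB_zero_succ, ih, hst]
    omega

theorem first_col' (I J : ℕ → ℕ) (W : ℕ × ℕ → ℕ) (j : ℕ) :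
    GB I J W 1 (j+1) = GB I J W 1 j + vst (I 0) J (fun j => W (0, j)) j := by
  rw [first_col, first_col, GB_zero_succ, hst, vst]
  omega

theorem pf_PEL : T_PEL := by
  intro I J W a b
  induction a generalizing b with
  | zero =>
    simp only [zero_add]
    induction b with
    | zero =>
      have h := GB_succ_zero I J W 0
      simp only [zero_add] at h
      rw [h, GB_zero_zero, GB_zero_zero]
      omega
    | succ b ih => rw [first_col', GB_zero_succ, ih]; omega
  | succ a iha =>
    induction b with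
    | zero => rw [GB_succ_zero, iha, GB_succ_zero]; omega
    | succ b ihb =>
      rw [GB_succ_succ I J W (a+1) b, iha, ihb,
        GB_succ_succ (fun i => I (i+1)) _ (hs 1 W) a b, Nat.add_max_add_left]
      simp only [hs]
      omega

end Pool.Agent.H19.GL
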