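import Pool.Agent.H84.GL.Targets2
import Pool.Agent.H22.LPP.Basics

/-!
# Module PRE: passage time with a prefix
-/

namespace Pool.Agent.H19.GL

open Pool.Agent.H84.GL Pool.Agent.H99.NS

theorem Gq_zero_start (w : ℕ → ℕ → ℕ) (a b : ℕ) :
    Gq w a b = Gq (fun i j => if i = 0 ∧ j = 0 then 0 else w i j) a b + w 0 0 := by
  induction a generalizing b with
  | zero =>
    induction b with
    | zero => simp [Gq]
    | succ j ih =>
      simp only [Gq]
      rw [ih]
      simp only [Nat.add_eq_zero_iff, one_ne_zero, and_false, if_false]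
      omega
  | succ i ihi =>
    induction b with
    | zero =>
      simp only [Gq]
      rw [ihi 0]
      simp only [Nat.add_eq_zero_iff, one_ne_zero, and_false, false_and, if_false]
      omega
    | succ j ihj =>
      simp only [Gq]
      rw [ihi (j+1), ihj]
      simp only [Nat.add_eq_zero_iff, one_ne_zero, and_false, if_false]
      omega

theorem LB_arr (ω : Env) (u : Site) (a b : ℕ) : LB (arr ω u) a b = Tq ω u a b + ω u := by
  unfold LB Tq arr
  rw [Gq_zero_start]
  congr 1
  simp [qs]

theorem pf_PRE : T_PRE := by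
  intro ω o u k a b hk hr
  obtain ⟨y, hy⟩ : ∃ y, y = qs o k 0 := ⟨_, rfl⟩
  have e1 : hs k (arr ω o) = arr ω y := by
    funext p
    simp only [hs, arr, hy, qs]
    congr 1
    apply Prod.ext
    · simp only; push_cast; ring
    · simp only; push_cast; ring
  have e2 : qs y (a - k) b = qs o a b := by
    rw [hy]
    simp only [qs]
    apply Prod.ext
    · simp only; push_cast [Nat.cast_sub hk]; ring
    · simp only; push_cast [Nat.cast_sub hk]; ring
  have ey : y = ((o.1 + k - 1) + 1, o.2 + k) := by
    rw [hy]
    simp only [qs]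
    apply Prod.ext
    · simp only; push_cast; ring
    · simp only; push_cast; ring
  have e3 : T ω (o.1 + k - 1, o.2 + k + 1) y = ω y := by
    have := Pool.Agent.H22.LPP.T_one ω (t := o.1 + k - 1) (y := o.2 + k + 1) (y' := o.2 + k)
      (Or.inr (by ring))
    rw [ey]
    exact this
  have hxy : Reach (o.1 + k - 1, o.2 + k + 1) y := by
    rw [ey]
    refine ⟨?_, ?_⟩
    · simp only
      rw [abs_le]
      constructor <;> omega
    · simp only
      exact ⟨0, by omega⟩
  have hyv : Reach y (qs o a b) := by
    rw [← e2]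
    exact Pool.Agent.H22.LPP.reach_qs y (a - k) b
  have s1 := Pool.Agent.H22.LPP.T_superadd ω hr hxy
  have s2 := Pool.Agent.H22.LPP.T_superadd ω
    (Pool.Agent.H22.LPP.reach_trans hr hxy) hyv
  have e4 : T ω y (qs o a b) = (Tq ω y (a - k) b : ℝ) := by
    rw [← e2]
    exact Pool.Agent.H22.LPP.T_eq_Tq ω y (a - k) b
  rw [e1, LB_arr]
  push_cast
  rw [e3] at s1
  rw [e4] at s2
  linarith

end Pool.Agent.H19.GL
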