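import Pool.Agent.H84.GL.Basic

/-!
# Common facts for the modules PSI and PSL
-/

namespace Pool.Agent.H19.GL

theorem zero_le_of_deriv (f f' : ℝ → ℝ) (L : ℝ) (hL : 0 ≤ L)
    (h : ∀ x ∈ Set.Icc 0 L, HasDerivAt f (f' x) x) (hf : ∀ x ∈ Set.Icc 0 L, 0 ≤ f' x) :
    f 0 ≤ f L := by
  have hm : MonotoneOn f (Set.Icc 0 L) := by
    apply monotoneOn_of_deriv_nonneg (convex_Icc 0 L)
    · exact fun x hx => (h x hx).continuousAt.continuousWithinAt
    · intro x hx
      exact (h x (interior_subset hx)).differentiableAt.differentiableWithinAt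
    · intro x hx
      rw [(h x (interior_subset hx)).deriv]
      exact hf x (interior_subset hx)
  exact hm ⟨le_refl 0, hL⟩ ⟨hL, le_refl L⟩ hL

/-- The symmetric function `y`. -/
noncomputable def yy (β l : ℝ) : ℝ := β * (Real.exp (l / 2) + Real.exp (-(l / 2)) - 2)

theorem yy_eq (β l : ℝ) : yy β l = β * (Real.exp (l / 4) - Real.exp (-(l / 4))) ^ 2 := by
  unfold yy
  have h1 : Real.exp (l / 2) = Real.exp (l / 4) ^ 2 := by
    rw [← Real.exp_nat_mul]; congr 1; push_cast; ring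
  have h2 : Real.exp (-(l / 2)) = Real.exp (-(l / 4)) ^ 2 := by
    rw [← Real.exp_nat_mul]; congr 1; push_cast; ring
  have h3 : Real.exp (l / 4) * Real.exp (-(l / 4)) = 1 := by
    rw [← Real.exp_add]; simp
  rw [h1, h2]
  linear_combination (2 * β) * h3

theorem prod_eq (β l : ℝ) :
    (1 - β * Real.exp (-(l / 2))) * (1 - β * Real.exp (l / 2)) = (1 - β) ^ 2 - yy β l := by
  unfold yy
  have h3 : Real.exp (l / 2) * Real.exp (-(l / 2)) = 1 := by
    rw [← Real.exp_add]; simp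
  linear_combination (β ^ 2) * h3

/-- The logarithm of the symmetric generating function. -/
noncomputable def psi (β l : ℝ) : ℝ :=
  Real.log (1 - β * Real.exp (-(l / 2))) - Real.log (1 - β * Real.exp (l / 2))

theorem one_sub_pos (β l : ℝ) (hβ : 0 < β) (hl : 0 ≤ l) (h : β * Real.exp (l / 2) < 1) :
    0 < 1 - β * Real.exp (-(l / 2)) := by
  have : Real.exp (-(l / 2)) ≤ Real.exp (l / 2) := Real.exp_le_exp.2 (by linarith)
  nlinarith [mul_le_mul_of_nonneg_left this hβ.le]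

theorem psi_deriv (β l : ℝ) (hβ : 0 < β) (hβ1 : β < 1) (hl : 0 ≤ l)
    (h : β * Real.exp (l / 2) < 1) :
    HasDerivAt (psi β)
      (β / (1 - β) + yy β l * (1 + β) / (2 * (1 - β) * ((1 - β) ^ 2 - yy β l))) l := by
  have hp1 : 0 < 1 - β * Real.exp (-(l / 2)) := one_sub_pos β l hβ hl h
  have hp2 : 0 < 1 - β * Real.exp (l / 2) := by linarith
  have d1 : HasDerivAt (fun x : ℝ => Real.exp (-(x / 2))) (Real.exp (-(l / 2)) * (-(1 / 2))) l :=
    (((hasDerivAt_id l).div_const 2).neg).exp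
  have d2 : HasDerivAt (fun x : ℝ => Real.exp (x / 2)) (Real.exp (l / 2) * (1 / 2)) l :=
    ((hasDerivAt_id l).div_const 2).exp
  have d3 := ((d1.const_mul β).const_sub 1).log hp1.ne'
  have d4 := ((d2.const_mul β).const_sub 1).log hp2.ne'
  have d5 := d3.sub d4
  refine d5.congr_deriv ?_
  rw [← prod_eq]
  unfold yy
  have h3 : Real.exp (l / 2) * Real.exp (-(l / 2)) = 1 := by
    rw [← Real.exp_add]; simp
  have h1β : (1 - β) ≠ 0 := by linarith
  have hp1' := hp1.ne'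
  have hp2' := hp2.ne'
  obtain ⟨u, hu⟩ : ∃ u, u = Real.exp (l / 2) := ⟨_, rfl⟩
  obtain ⟨v, hv⟩ : ∃ v, v = Real.exp (-(l / 2)) := ⟨_, rfl⟩
  rw [← hu, ← hv] at h3
  rw [← hv] at hp1'
  rw [← hu] at hp2'
  rw [← hu, ← hv]
  field_simp
  linear_combination (-2 * β) * h3

/-- Bounds for `e^t - e^{-t}`. -/
theorem le_exp_sub (t : ℝ) (ht : 0 ≤ t) : 2 * t ≤ Real.exp t - Real.exp (-t) := by
  have h := Real.self_le_sinh_iff.2 ht
  rw [Real.sinh_eq] at h
  linarith

theorem exp_sub_le (t : ℝ) (ht : 0 ≤ t) (ht1 : t ≤ 1) : Real.exp t - Real.exp (-t) ≤ 3 * t := by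
  have h := (abs_le.1 (Real.abs_exp_sub_one_sub_id_le (x := t) (by rw [abs_of_nonneg ht]; exact ht1))).2
  have h2 := Real.add_one_le_exp (-t)
  nlinarith

theorem le_yy (β l : ℝ) (hβ : 0 < β) (hl : 0 ≤ l) : β * l ^ 2 / 4 ≤ yy β l := by
  rw [yy_eq]
  have h := le_exp_sub (l / 4) (by linarith)
  have h2 : (l / 2) ^ 2 ≤ (Real.exp (l / 4) - Real.exp (-(l / 4))) ^ 2 :=
    pow_le_pow_left₀ (by linarith) (by linarith) 2
  nlinarith [mul_le_mul_of_nonneg_left h2 hβ.le]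

theorem yy_le (β l : ℝ) (hβ : 0 < β) (hβ1 : β < 1) (hl : 0 ≤ l) (hl1 : l ≤ 1) :
    yy β l ≤ l ^ 2 := by
  rw [yy_eq]
  have h := exp_sub_le (l / 4) (by linarith) (by linarith)
  have h0 := le_exp_sub (l / 4) (by linarith)
  have h2 : (Real.exp (l / 4) - Real.exp (-(l / 4))) ^ 2 ≤ l ^ 2 :=
    pow_le_pow_left₀ (by linarith) (by linarith) 2
  nlinarith [mul_le_mul_of_nonneg_left h2 hβ.le, sq_nonneg l]

theorem psi_zero (β : ℝ) : psi β 0 = 0 := by
  unfold psi
  simp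

theorem log_eq_psi (β l : ℝ) (hβ : 0 < β) (hl : 0 ≤ l) (h : β * Real.exp (l / 2) < 1) :
    Real.log ((1 - β * Real.exp (-(l / 2))) / (1 - β * Real.exp (l / 2))) = psi β l := by
  unfold psi
  rw [Real.log_div (one_sub_pos β l hβ hl h).ne' (by linarith)]

end Pool.Agent.H19.GL
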