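import Pool.Agent.H19.GL.PS

/-!
# Module PSI: upper bound for the symmetric generating function
-/

namespace Pool.Agent.H19.GL

open Pool.Agent.H84.GL Pool.Agent.H99.NS

theorem pf_PSI : T_PSI := by
  intro b hb0 hb1
  have h1b : 0 < 1 - b := by linarith
  refine ⟨2 / (3 * (1 - b) ^ 3), min 1 ((1 - b) / 2), by positivity, by positivity, ?_⟩
  intro β lam hβ hβb hl0 hl1
  have hβ1 : β < 1 := by linarith
  have h1β : 0 < 1 - β := by linarith
  have hl1' : lam ≤ 1 := hl1.trans (min_le_left _ _)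
  have hl2' : lam ≤ (1 - b) / 2 := hl1.trans (min_le_right _ _)
  have hy : ∀ x, 0 ≤ x → x ≤ lam → yy β x ≤ (1 - b) ^ 2 / 2 := by
    intro x h0 h1
    have h2 := yy_le β x hβ hβ1 h0 (by linarith)
    nlinarith
  have hD : ∀ x, 0 ≤ x → x ≤ lam → (1 - b) ^ 2 / 2 ≤ (1 - β) ^ 2 - yy β x := by
    intro x h0 h1
    have := hy x h0 h1
    nlinarith
  have hx : ∀ x, 0 ≤ x → x ≤ lam → β * Real.exp (x / 2) < 1 := by
    intro x h0 h1
    have h2 := hD x h0 h1
    rw [← prod_eq] at h2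
    have h3 : Real.exp (-(x / 2)) ≤ 1 := by rw [Real.exp_le_one_iff]; linarith
    have h4 : 0 < 1 - β * Real.exp (-(x / 2)) := by
      nlinarith [mul_le_mul_of_nonneg_left h3 hβ.le]
    have h5 : 0 < (1 - β * Real.exp (-(x / 2))) * (1 - β * Real.exp (x / 2)) :=
      lt_of_lt_of_le (by positivity) h2
    have h6 := (mul_pos_iff_of_pos_left h4).1 h5
    linarith
  refine ⟨hx lam hl0 (le_refl _), ?_⟩
  rw [log_eq_psi β lam hβ hl0 (hx lam hl0 (le_refl _))]
  have hd : ∀ x ∈ Set.Icc 0 lam, HasDerivAt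
      (fun x => x * (β / (1 - β)) + 2 / (3 * (1 - b) ^ 3) * x ^ 3 - psi β x)
      (2 / (1 - b) ^ 3 * x ^ 2 -
        yy β x * (1 + β) / (2 * (1 - β) * ((1 - β) ^ 2 - yy β x))) x := by
    intro x hxx
    have d1 := psi_deriv β x hβ hβ1 hxx.1 (hx x hxx.1 hxx.2)
    have d2 : HasDerivAt (fun x : ℝ => x * (β / (1 - β))) (1 * (β / (1 - β))) x :=
      (hasDerivAt_id x).mul_const _
    have d3 : HasDerivAt (fun x : ℝ => 2 / (3 * (1 - b) ^ 3) * x ^ 3)
        (2 / (3 * (1 - b) ^ 3) * ((3 : ℕ) * x ^ (3 - 1))) x :=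
      (hasDerivAt_pow 3 x).const_mul _
    refine ((d2.add d3).sub d1).congr_deriv ?_
    field_simp
    ring
  have hf : ∀ x ∈ Set.Icc 0 lam,
      0 ≤ 2 / (1 - b) ^ 3 * x ^ 2 -
        yy β x * (1 + β) / (2 * (1 - β) * ((1 - β) ^ 2 - yy β x)) := by
    intro x hxx
    have h2 := yy_le β x hβ hβ1 hxx.1 (by linarith [hxx.2])
    have h3 := hD x hxx.1 hxx.2
    have e : 2 / (1 - b) ^ 3 * x ^ 2 = (x ^ 2 * 2) / (2 * (1 - b) * ((1 - b) ^ 2 / 2)) := by
      field_simp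
    rw [e, sub_nonneg]
    apply div_le_div₀
    · positivity
    · nlinarith [sq_nonneg x]
    · positivity
    · exact mul_le_mul (by linarith) h3 (by positivity) (by positivity)
  have := zero_le_of_deriv _ _ lam hl0 hd hf
  simp only [psi_zero] at this
  linarith

end Pool.Agent.H19.GL
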