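import Pool.Agent.H19.GL.PS

/-!
# Module PSL: lower bound for the symmetric generating function
-/

namespace Pool.Agent.H19.GL

open Pool.Agent.H84.GL Pool.Agent.H99.NS

theorem pf_PSL : T_PSL := by
  intro β hβ hβ1
  have h1β : 0 < 1 - β := by linarith
  refine ⟨β / (24 * (1 - β) ^ 3), by positivity, ?_⟩
  intro lam hl h
  rw [log_eq_psi β lam hβ hl h]
  have hx : ∀ x ∈ Set.Icc 0 lam, β * Real.exp (x / 2) < 1 := by
    intro x hx
    have : Real.exp (x / 2) ≤ Real.exp (lam / 2) := Real.exp_le_exp.2 (by linarith [hx.2])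
    nlinarith [mul_le_mul_of_nonneg_left this hβ.le]
  have hd : ∀ x ∈ Set.Icc 0 lam, HasDerivAt
      (fun x => psi β x - x * (β / (1 - β)) - β / (24 * (1 - β) ^ 3) * x ^ 3)
      (yy β x * (1 + β) / (2 * (1 - β) * ((1 - β) ^ 2 - yy β x)) -
        β / (8 * (1 - β) ^ 3) * x ^ 2) x := by
    intro x hxx
    have d1 := psi_deriv β x hβ hβ1 hxx.1 (hx x hxx)
    have d2 : HasDerivAt (fun x : ℝ => x * (β / (1 - β))) (1 * (β / (1 - β))) x :=
      (hasDerivAt_id x).mul_const _
    have d3 : HasDerivAt (fun x : ℝ => β / (24 * (1 - β) ^ 3) * x ^ 3)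
        (β / (24 * (1 - β) ^ 3) * ((3 : ℕ) * x ^ (3 - 1))) x :=
      (hasDerivAt_pow 3 x).const_mul _
    refine ((d1.sub d2).sub d3).congr_deriv ?_
    field_simp
    ring
  have hf : ∀ x ∈ Set.Icc 0 lam,
      0 ≤ yy β x * (1 + β) / (2 * (1 - β) * ((1 - β) ^ 2 - yy β x)) -
        β / (8 * (1 - β) ^ 3) * x ^ 2 := by
    intro x hxx
    have hy := le_yy β x hβ hxx.1
    have hy0 : 0 ≤ yy β x := le_trans (by positivity) hy
    have hD : 0 < (1 - β) ^ 2 - yy β x := by
      rw [← prod_eq]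
      exact mul_pos (one_sub_pos β x hβ hxx.1 (hx x hxx)) (by linarith [hx x hxx])
    have hD2 : (1 - β) ^ 2 - yy β x ≤ (1 - β) ^ 2 := by linarith
    have e : β / (8 * (1 - β) ^ 3) * x ^ 2 = (β * x ^ 2 / 4) / (2 * (1 - β) * (1 - β) ^ 2) := by
      field_simp
      ring
    rw [e, sub_nonneg]
    apply div_le_div₀
    · positivity
    · nlinarith
    · positivity
    · exact mul_le_mul_of_nonneg_left hD2 (by positivity)
  have := zero_le_of_deriv _ _ lam hl hd hf
  simp only [psi_zero] at this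
  linarith

end Pool.Agent.H19.GL
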