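import Pool.Agent.H84.GL.Targets3
import Pool.Agent.H19.GL.PS

/-!
# Module PSS: sharp upper bound for the symmetric generating function
-/

open Filter Topology

namespace Pool.Agent.H19.GL

open Pool.Agent.H84.GL Pool.Agent.H99.NS

theorem yy_le' (β l : ℝ) (hβ : 0 < β) (hl : 0 ≤ l) (hl1 : l ≤ 1) :
    yy β l ≤ β * (l ^ 2 * (1 + l) ^ 2 / 4) := by
  rw [yy_eq]
  have h := (abs_le.1 (Real.abs_exp_sub_one_sub_id_le (x := l / 4)
    (by rw [abs_of_nonneg (by linarith)]; linarith))).2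
  have h2 := Real.add_one_le_exp (-(l / 4))
  have h0 := le_exp_sub (l / 4) (by linarith)
  have h3 : Real.exp (l / 4) - Real.exp (-(l / 4)) ≤ l / 2 * (1 + l) := by nlinarith
  have h4 : (Real.exp (l / 4) - Real.exp (-(l / 4))) ^ 2 ≤ (l / 2 * (1 + l)) ^ 2 :=
    pow_le_pow_left₀ (by linarith) h3 2
  calc β * (Real.exp (l / 4) - Real.exp (-(l / 4))) ^ 2 ≤ β * (l / 2 * (1 + l)) ^ 2 :=
        mul_le_mul_of_nonneg_left h4 hβ.le
    _ = _ := by ring

theorem pf_PSS : T_PSS := by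
  intro β₀ ε hb0 hb1 hε
  have h1b : 0 < 1 - β₀ := by linarith
  obtain ⟨G, hG⟩ : ∃ G : ℝ × ℝ → ℝ,
    G = fun p => (1 - p.1) ^ 2 - p.1 * (p.2 ^ 2 * (1 + p.2) ^ 2 / 4) := ⟨_, rfl⟩
  obtain ⟨F, hF⟩ : ∃ F : ℝ × ℝ → ℝ,
    F = fun p => p.1 * (1 + p.2) ^ 2 * (1 + p.1) / (8 * (1 - p.1) * G p) := ⟨_, rfl⟩
  have hG0 : G (β₀, 0) = (1 - β₀) ^ 2 := by rw [hG]; simp
  have hF0 : F (β₀, 0) = 3 * cc β₀ := by
    rw [hF]
    simp only [hG0]
    unfold cc
    field_simp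
    ring
  have cG : Continuous G := by rw [hG]; fun_prop
  have cF : ContinuousAt F (β₀, 0) := by
    rw [hF]
    apply ContinuousAt.div
    · fun_prop
    · fun_prop
    · simp only [hG0]
      positivity
  have E1 : ∀ᶠ p in 𝓝 ((β₀, 0) : ℝ × ℝ), 0 < G p :=
    cG.continuousAt.eventually_const_lt (by rw [hG0]; positivity)
  have E2 : ∀ᶠ p in 𝓝 ((β₀, 0) : ℝ × ℝ), F p < 3 * (cc β₀ + ε) :=
    cF.eventually_lt_const (by rw [hF0]; linarith)
  have E3 : ∀ᶠ p in 𝓝 ((β₀, 0) : ℝ × ℝ), 0 < p.1 :=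
    continuous_fst.continuousAt.eventually_const_lt (by simpa using hb0)
  have E4 : ∀ᶠ p in 𝓝 ((β₀, 0) : ℝ × ℝ), p.1 < 1 :=
    continuous_fst.continuousAt.eventually_lt_const (by simpa using hb1)
  have E5 : ∀ᶠ p in 𝓝 ((β₀, 0) : ℝ × ℝ), p.2 < 1 :=
    continuous_snd.continuousAt.eventually_lt_const (by simp)
  obtain ⟨r, hr, H⟩ := Metric.eventually_nhds_iff.1 (E1.and (E2.and (E3.and (E4.and E5))))
  refine ⟨r / 2, by positivity, ?_⟩
  intro β lam hβ hl0 hl1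
  have H' : ∀ l, 0 ≤ l → l ≤ lam → 0 < G (β, l) ∧ F (β, l) < 3 * (cc β₀ + ε) ∧ 0 < β ∧
      β < 1 ∧ l < 1 := by
    intro l h0 h1
    apply H
    rw [Prod.dist_eq]
    apply max_lt
    · simp only [Real.dist_eq]; linarith
    · simp only [Real.dist_eq, sub_zero]; rw [abs_of_nonneg h0]; linarith
  obtain ⟨-, -, hβ0, hβ1, -⟩ := H' 0 (le_refl 0) hl0
  have h1β : 0 < 1 - β := by linarith
  have hGy : ∀ l, 0 ≤ l → l ≤ lam → G (β, l) ≤ (1 - β) ^ 2 - yy β l := by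
    intro l h0 h1
    have h2 := yy_le' β l hβ0 h0 (H' l h0 h1).2.2.2.2.le
    rw [hG]
    simp only
    linarith
  have hx : ∀ x, 0 ≤ x → x ≤ lam → β * Real.exp (x / 2) < 1 := by
    intro x h0 h1
    have h2 := hGy x h0 h1
    have hGp := (H' x h0 h1).1
    rw [← prod_eq] at h2
    have h3 : Real.exp (-(x / 2)) ≤ 1 := by rw [Real.exp_le_one_iff]; linarith
    have h4 : 0 < 1 - β * Real.exp (-(x / 2)) := by
      nlinarith [mul_le_mul_of_nonneg_left h3 hβ0.le]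
    have h5 : 0 < (1 - β * Real.exp (-(x / 2))) * (1 - β * Real.exp (x / 2)) :=
      lt_of_lt_of_le hGp h2
    have h6 := (mul_pos_iff_of_pos_left h4).1 h5
    linarith
  refine ⟨hβ0, hx lam hl0 (le_refl _), ?_⟩
  rw [log_eq_psi β lam hβ0 hl0 (hx lam hl0 (le_refl _))]
  have hd : ∀ x ∈ Set.Icc 0 lam, HasDerivAt
      (fun x => x * (β / (1 - β)) + (cc β₀ + ε) * x ^ 3 - psi β x)
      (3 * (cc β₀ + ε) * x ^ 2 -
        yy β x * (1 + β) / (2 * (1 - β) * ((1 - β) ^ 2 - yy β x))) x := by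
    intro x hxx
    have d1 := psi_deriv β x hβ0 hβ1 hxx.1 (hx x hxx.1 hxx.2)
    have d2 : HasDerivAt (fun x : ℝ => x * (β / (1 - β))) (1 * (β / (1 - β))) x :=
      (hasDerivAt_id x).mul_const _
    have d3 : HasDerivAt (fun x : ℝ => (cc β₀ + ε) * x ^ 3)
        ((cc β₀ + ε) * ((3 : ℕ) * x ^ (3 - 1))) x :=
      (hasDerivAt_pow 3 x).const_mul _
    refine ((d2.add d3).sub d1).congr_deriv ?_
    push_cast
    ring
  have hf : ∀ x ∈ Set.Icc 0 lam,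
      0 ≤ 3 * (cc β₀ + ε) * x ^ 2 -
        yy β x * (1 + β) / (2 * (1 - β) * ((1 - β) ^ 2 - yy β x)) := by
    intro x hxx
    obtain ⟨hGp, hFp, -, -, hx1⟩ := H' x hxx.1 hxx.2
    have h2 := yy_le' β x hβ0 hxx.1 hx1.le
    have h3 := hGy x hxx.1 hxx.2
    have e : F (β, x) * x ^ 2 = (β * (x ^ 2 * (1 + x) ^ 2 / 4)) * (1 + β) /
        (2 * (1 - β) * G (β, x)) := by
      rw [hF]
      simp only
      field_simp
      ring
    have h4 : yy β x * (1 + β) / (2 * (1 - β) * ((1 - β) ^ 2 - yy β x)) ≤ F (β, x) * x ^ 2 := by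
      rw [e]
      apply div_le_div₀
      · positivity
      · exact mul_le_mul_of_nonneg_right h2 (by linarith)
      · positivity
      · exact mul_le_mul_of_nonneg_left h3 (by positivity)
    have h5 : F (β, x) * x ^ 2 ≤ 3 * (cc β₀ + ε) * x ^ 2 :=
      mul_le_mul_of_nonneg_right hFp.le (sq_nonneg x)
    linarith
  have := zero_le_of_deriv _ _ lam hl0 hd hf
  simp only [psi_zero] at this
  linarith

end Pool.Agent.H19.GL
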