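import Pool.Agent.H84.GL.Targets2
import Pool.Agent.H22.LPP.Prob

/-!
# Module UT: upper tail, all directions
-/

open MeasureTheory ProbabilityTheory
open scoped ENNReal

namespace Pool.Agent.H19.GL

open Pool.Agent.H84.GL Pool.Agent.H99.NS

/-- The choice of the parameter in the Chernoff bound. -/
theorem ut_choice (C l₀ : ℝ) (hC : 0 < C) (hl : 0 < l₀) (e : ℝ) (he : 0 < e)
    (hCe : C * e ^ 2 ≤ 1 / 2) (x r : ℝ) (hx : 0 ≤ x) (hr : 0 < r) :
    ∃ lam : ℝ, 0 ≤ lam ∧ lam ≤ l₀ ∧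
      -(lam * (x * r)) + C * (r ^ 3 * lam ^ 3 + lam) ≤
        C * l₀ - (min e l₀ / 2) * min (x ^ ((3:ℝ)/2)) (x * r) := by
  obtain ⟨s, hs⟩ : ∃ s, s = √x := ⟨_, rfl⟩
  have hs0 : 0 ≤ s := by rw [hs]; exact Real.sqrt_nonneg x
  have hsx : s ^ 2 = x := by rw [hs]; exact Real.sq_sqrt hx
  have hs3 : x ^ ((3:ℝ)/2) = s ^ 3 := by
    rw [hs, Real.sqrt_eq_rpow, ← Real.rpow_natCast, ← Real.rpow_mul hx]
    norm_num
  have hmin0 : 0 ≤ min (x ^ ((3:ℝ)/2)) (x * r) := by positivity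
  by_cases h : e * s / r ≤ l₀
  · refine ⟨e * s / r, by positivity, h, ?_⟩
    have e1 : e * s / r * (x * r) = e * s ^ 3 := by
      rw [← hsx]; field_simp
    have e2 : r ^ 3 * (e * s / r) ^ 3 = e ^ 3 * s ^ 3 := by
      field_simp
    rw [e1, e2]
    have h1 : min e l₀ / 2 * min (x ^ ((3:ℝ)/2)) (x * r) ≤ e / 2 * s ^ 3 := by
      apply mul_le_mul
      · linarith [min_le_left e l₀]
      · rw [← hs3]; exact min_le_left _ _
      · exact hmin0
      · positivity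
    have h2 : C * (e ^ 3 * s ^ 3) ≤ 1 / 2 * (e * s ^ 3) := by
      have h3 : 0 ≤ e * s ^ 3 := by positivity
      nlinarith [mul_le_mul_of_nonneg_right hCe h3]
    have h4 : C * (e * s / r) ≤ C * l₀ := mul_le_mul_of_nonneg_left h hC.le
    nlinarith
  · refine ⟨l₀, hl.le, le_refl _, ?_⟩
    push Not at h
    have h0 : l₀ * r < e * s := by rwa [lt_div_iff₀ hr] at h
    have h1 : (l₀ * r) ^ 2 ≤ (e * s) ^ 2 := pow_le_pow_left₀ (by positivity) h0.le 2
    have h2 : C * (r ^ 3 * l₀ ^ 3) ≤ 1 / 2 * (l₀ * (x * r)) := by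
      have h3 : C * (r ^ 3 * l₀ ^ 3) = (C * (l₀ * r)) * (l₀ * r) ^ 2 := by ring
      have h5 : (C * (l₀ * r)) * (e * s) ^ 2 = C * e ^ 2 * (l₀ * (x * r)) := by
        rw [← hsx]; ring
      rw [h3]
      calc (C * (l₀ * r)) * (l₀ * r) ^ 2 ≤ (C * (l₀ * r)) * (e * s) ^ 2 :=
            mul_le_mul_of_nonneg_left h1 (by positivity)
        _ = C * e ^ 2 * (l₀ * (x * r)) := h5
        _ ≤ _ := mul_le_mul_of_nonneg_right hCe (by positivity)
    have h6 : min e l₀ / 2 * min (x ^ ((3:ℝ)/2)) (x * r) ≤ l₀ / 2 * (x * r) := by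
      apply mul_le_mul
      · linarith [min_le_right e l₀]
      · exact min_le_right _ _
      · exact hmin0
      · positivity
    nlinarith

theorem pf_UT (h_UTM : D_UTM) : D_UT := by
  intro q hq0 hq1
  obtain ⟨C, l₀, hC, hl, H⟩ := h_UTM q hq0 hq1
  obtain ⟨e, he⟩ : ∃ e, e = min 1 (1 / √(2 * C)) := ⟨_, rfl⟩
  have he0 : 0 < e := by rw [he]; positivity
  have hCe : C * e ^ 2 ≤ 1 / 2 := by
    have h1 : e ≤ 1 / √(2 * C) := by rw [he]; exact min_le_right _ _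
    have h2 : e ^ 2 ≤ (1 / √(2 * C)) ^ 2 := pow_le_pow_left₀ he0.le h1 2
    have h3 : (1 / √(2 * C)) ^ 2 = 1 / (2 * C) := by
      rw [div_pow, one_pow, Real.sq_sqrt (by positivity)]
    rw [h3] at h2
    calc C * e ^ 2 ≤ C * (1 / (2 * C)) := mul_le_mul_of_nonneg_left h2 hC.le
      _ = 1 / 2 := by field_simp
  refine ⟨Real.exp (C * l₀), min e l₀ / 2, Real.exp_pos _, by positivity, ?_⟩
  intro u v huv h1 x hx
  have hN : 1 ≤ len u v := by
    unfold len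
    have : (1 : ℤ) ≤ v.1 - u.1 := by omega
    exact_mod_cast this
  obtain ⟨r, hr⟩ : ∃ r, r = (len u v) ^ ((1:ℝ)/3) := ⟨_, rfl⟩
  have hr0 : 0 < r := by rw [hr]; positivity
  have hr3 : r ^ 3 = len u v := by
    rw [hr, ← Real.rpow_natCast, ← Real.rpow_mul (by linarith)]
    norm_num
  rw [← hr]
  obtain ⟨lam, hl0, hl1, hb⟩ := ut_choice C l₀ hC hl e he0 hCe x r hx hr0
  have hch := chernoff (PE q) (fun ω => T ω u v) (Pool.Agent.H22.LPP.measurable_T u v) lam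
    (par q u v + x * r) hl0
  refine hch.trans ?_
  refine (mul_le_mul_right (H lam hl0 hl1 u v huv h1) _).trans ?_
  rw [← ex_add, ← Real.exp_add]
  change ex _ ≤ ex _
  rw [ex_le_ex, ← hr3]
  nlinarith

end Pool.Agent.H19.GL
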