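import Pool.Agent.H84.GL.Basic

/-!
# Module VRO: vertical increments on a column of the stationary model
-/

open MeasureTheory ProbabilityTheory
open scoped ENNReal

namespace Pool.Agent.H19.GL

open Pool.Agent.H84.GL Pool.Agent.H99.NS

/-- Peeling of the first column as a map of the data. -/
def peel (x : (ℕ → ℕ) × (ℕ → ℕ) × (ℕ × ℕ → ℕ)) : (ℕ → ℕ) × (ℕ → ℕ) × (ℕ × ℕ → ℕ) :=
  (fun n => x.1 (n+1), vst (x.1 0) x.2.1 (fun j => x.2.2 (0, j)), hs 1 x.2.2)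

theorem mp_peel (h_SH1 : T_SH1) (h_SH2 : T_SH2) (h_COL : T_COL)
    (α β : ℝ) (ha0 : 0 < α) (ha1 : α < 1) (hb0 : 0 < β) (hb1 : β < 1) :
    MeasurePreserving peel (PB α β (α * β)) (PB α β (α * β)) := by
  have mI : MeasurePreserving (fun x : ℕ → ℕ => (x 0, fun n => x (n+1))) (P1 α)
      ((geo α).prod (P1 α)) := ⟨by fun_prop, h_SH1 α⟩
  have mW : MeasurePreserving (fun W : ℕ × ℕ → ℕ => ((fun j => W (0, j)), hs 1 W))
      (P2 (α * β)) ((P1 (α * β)).prod (P2 (α * β))) := by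
    refine ⟨?_, h_SH2 (α * β)⟩
    have := measurable_hs 1
    fun_prop
  have mV : MeasurePreserving
      (fun x : ℕ × (ℕ → ℕ) × (ℕ → ℕ) => vst x.1 x.2.1 x.2.2)
      ((geo α).prod ((P1 β).prod (P1 (α * β)))) (P1 β) :=
    ⟨measurable_vst, h_COL α β ha0 ha1 hb0 hb1⟩
  have M1 := mI.prod ((MeasurePreserving.id (P1 β)).prod mW)
  -- swap the first pair
  have S1 : MeasurePreserving (Prod.swap : ℕ × (ℕ → ℕ) → (ℕ → ℕ) × ℕ)
      ((geo α).prod (P1 α)) ((P1 α).prod (geo α)) := Measure.measurePreserving_swap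
  have M2 := S1.prod (MeasurePreserving.id ((P1 β).prod ((P1 (α * β)).prod (P2 (α * β)))))
  have M3 := measurePreserving_prodAssoc (P1 α) (geo α)
    ((P1 β).prod ((P1 (α * β)).prod (P2 (α * β))))
  -- inner rearrangement
  have A1 : MeasurePreserving _ _ _ :=
    (measurePreserving_prodAssoc (P1 β) (P1 (α * β)) (P2 (α * β))).symm
  have A2 := (MeasurePreserving.id (geo α)).prod A1
  have A3 : MeasurePreserving _ _ _ :=
    (measurePreserving_prodAssoc (geo α) ((P1 β).prod (P1 (α * β))) (P2 (α * β))).symm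
  have A4 := mV.prod (MeasurePreserving.id (P2 (α * β)))
  have A5 := A4.comp (A3.comp A2)
  have M4 := (MeasurePreserving.id (P1 α)).prod A5
  exact M4.comp (M3.comp (M2.comp M1))

theorem pf_VRO (h_SH1 : T_SH1) (h_SH2 : T_SH2) (h_COL : T_COL) (h_PEL : T_PEL) : T_VRO := by
  intro α β ha0 ha1 hb0 hb1 a
  induction a with
  | zero =>
    have e : (fun (x : (ℕ → ℕ) × (ℕ → ℕ) × (ℕ × ℕ → ℕ)) (j : ℕ) =>
        GB x.1 x.2.1 x.2.2 0 (j+1) - GB x.1 x.2.1 x.2.2 0 j) = fun x => x.2.1 := by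
      funext x j
      have : GB x.1 x.2.1 x.2.2 0 (j+1) = GB x.1 x.2.1 x.2.2 0 j + x.2.1 j := by simp only [GB]
      rw [this]
      omega
    rw [e]
    have m1 : MeasurePreserving (Prod.snd : (ℕ → ℕ) × ((ℕ → ℕ) × (ℕ × ℕ → ℕ)) → _)
        ((P1 α).prod ((P1 β).prod (P2 (α * β)))) ((P1 β).prod (P2 (α * β))) :=
      measurePreserving_snd
    have m2 : MeasurePreserving (Prod.fst : (ℕ → ℕ) × (ℕ × ℕ → ℕ) → _)
        ((P1 β).prod (P2 (α * β))) (P1 β) := measurePreserving_fst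
    exact (m2.comp m1).map_eq
  | succ a ih =>
    have mp := mp_peel h_SH1 h_SH2 h_COL α β ha0 ha1 hb0 hb1
    have e : (fun (x : (ℕ → ℕ) × (ℕ → ℕ) × (ℕ × ℕ → ℕ)) (j : ℕ) =>
        GB x.1 x.2.1 x.2.2 (a+1) (j+1) - GB x.1 x.2.1 x.2.2 (a+1) j) =
        (fun (x : (ℕ → ℕ) × (ℕ → ℕ) × (ℕ × ℕ → ℕ)) (j : ℕ) =>
          GB x.1 x.2.1 x.2.2 a (j+1) - GB x.1 x.2.1 x.2.2 a j) ∘ peel := by
      funext x j
      simp only [Function.comp, peel]
      rw [h_PEL, h_PEL]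
      omega
    have hm : Measurable (fun (x : (ℕ → ℕ) × (ℕ → ℕ) × (ℕ × ℕ → ℕ)) (j : ℕ) =>
          GB x.1 x.2.1 x.2.2 a (j+1) - GB x.1 x.2.1 x.2.2 a j) := by
      refine measurable_pi_lambda _ fun j => ?_
      exact (measurable_GB a (j+1)).sub (measurable_GB a j)
    rw [e, ← Measure.map_map hm mp.measurable, mp.map_eq]
    exact ih

end Pool.Agent.H19.GL
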